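import Pool.Agent.BEH.Stmts
import Pool.Agent.Helper91_BE01.EMB

/-!
# Squad BEH (MP_be01ff_an), row MVI: zeros of nonnegative superharmonic functions
-/

set_option autoImplicit false

noncomputable section

namespace Pool.Agent.BEH.H57

open Set Filter Topology MeasureTheory
open scoped InnerProductSpace ENNReal
open Pool.Agent.BE01 Pool.Agent.BEL Pool.Agent.BEH
open Pool.Agent.BE01.H91

variable {d : ℕ}

/-- the equation for the potential, tested with all elements of the space of gradients -/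
theorem key {Ω : Set (En d)} (ι : VV Ω →L[ℝ] Lp ℝ 2 (mu Ω)) (hι : Emb2 Ω ι) {ψ k : En d → ℝ}
    (hψ : Tst Ω ψ) (hk : Continuous k) (hks : HasCompactSupport k)
    (lap : ∀ φ : En d → ℝ, ContDiff ℝ ((⊤ : ℕ∞) : WithTop ℕ∞) φ → HasCompactSupport φ →
      ∫ y, ⟪gradient φ y, gradient ψ y⟫_ℝ = ∫ y, φ y * k y) (G : VV Ω) :
    ∫ y, ⟪(G : Lp (En d) 2 (mu Ω)) y, gradient ψ y⟫_ℝ ∂(mu Ω) =
      ∫ y, ι G y * k y ∂(mu Ω) := by
  have hkm : MemLp k 2 (mu Ω) := hk.memLp_of_hasCompactSupport hks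
  have hP := tst_grad_memLp hψ 2
  have h1 : ∀ G : VV Ω, ∫ y, ⟪(G : Lp (En d) 2 (mu Ω)) y, gradient ψ y⟫_ℝ ∂(mu Ω) =
      ⟪(G : Lp (En d) 2 (mu Ω)), hP.toLp _⟫_ℝ := by
    intro G
    rw [L2.inner_def]
    apply integral_congr_ae
    filter_upwards [hP.coeFn_toLp] with y hy
    rw [hy]
  have h2 : ∀ G : VV Ω, ∫ y, ι G y * k y ∂(mu Ω) = ⟪hkm.toLp _, ι G⟫_ℝ := by
    intro G
    rw [L2.inner_def]
    apply integral_congr_ae
    filter_upwards [hkm.coeFn_toLp] with y hy
    rw [hy]
    rfl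
  have h3 : (fun G : VV Ω => ⟪(G : Lp (En d) 2 (mu Ω)), hP.toLp _⟫_ℝ) =
      fun G : VV Ω => ⟪hkm.toLp _, ι G⟫_ℝ := by
    apply (ge_dense Ω).equalizer
    · exact continuous_subtype_val.inner continuous_const
    · exact continuous_const.inner ι.continuous
    · funext φ
      show ⟪((ge Ω φ : VV Ω) : Lp (En d) 2 (mu Ω)), hP.toLp _⟫_ℝ = ⟪hkm.toLp _, ι (ge Ω φ)⟫_ℝ
      rw [← h1, ← h2]
      have e1 : ∫ y, ⟪((ge Ω φ : VV Ω) : Lp (En d) 2 (mu Ω)) y, gradient ψ y⟫_ℝ ∂(mu Ω) =
          ∫ y, ⟪gradient φ.1 y, gradient ψ y⟫_ℝ ∂(mu Ω) := by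
        apply integral_congr_ae
        filter_upwards [gr_ae Ω φ] with y hy
        rw [ge_coe, hy]
      have e2 : ∫ y, ι (ge Ω φ) y * k y ∂(mu Ω) = ∫ y, φ.1 y * k y ∂(mu Ω) := by
        apply integral_congr_ae
        filter_upwards [hι φ.1 φ.2 (ge Ω φ) (gr_ae Ω φ)] with y hy
        rw [hy]
      have e3 : ∫ y, ⟪gradient φ.1 y, gradient ψ y⟫_ℝ ∂(mu Ω) =
          ∫ y, ⟪gradient φ.1 y, gradient ψ y⟫_ℝ := by
        unfold mu
        apply setIntegral_eq_integral_of_forall_compl_eq_zero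
        intro y hy
        have hy1 : y ∉ tsupport φ.1 := fun h => hy (φ.2.2.2 h)
        have : gradient φ.1 y = 0 := by
          unfold gradient
          rw [fderiv_of_notMem_tsupport (𝕜 := ℝ) hy1, map_zero]
        rw [this, inner_zero_left]
      have e4 : ∫ y, φ.1 y * k y ∂(mu Ω) = ∫ y, φ.1 y * k y := by
        unfold mu
        apply setIntegral_eq_integral_of_forall_compl_eq_zero
        intro y hy
        have hy1 : y ∉ tsupport φ.1 := fun h => hy (φ.2.2.2 h)
        rw [image_eq_zero_of_notMem_tsupport hy1, zero_mul]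
      rw [e1, e2, e3, e4]
      exact lap φ.1 φ.2.1 φ.2.2.1
  rw [h1, h2]
  exact congrFun h3 G

/-- MVI. -/
theorem mvi (the : TheStmt) (hfg : HfgStmt) : MviStmt := by
  intro d Ω ι G B f x R hd hΩ hι hB hf0 hfG hsup hR hball hleb hfx
  obtain ⟨A, θ, θ', hA, hprof⟩ := the
  have shell : ∀ R₁ : ℝ, 0 < R₁ → R₁ ≤ R → ∀ᵐ y : En d, R₁ / 2 < ‖y - x‖ → ‖y - x‖ < R₁ →
      f y = 0 := by
    intro R₁ hR₁ hR₁R
    obtain ⟨h, hh⟩ := hfg d A θ θ' hd hA hprof x R₁ hR₁
    obtain ⟨D, hD⟩ : ∃ D : ℝ, D = A * 2 ^ (d - 1) / (sph d * R₁ ^ d) := ⟨_, rfl⟩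
    rw [← hD] at hh
    have hh' : ∀ r : ℝ, 0 < r → r < R₁ → ∃ (γ : ℝ) (ψ g : En d → ℝ), Fld x R₁ D γ r ψ g h := by
      intro r hr hrR
      obtain ⟨K, hK⟩ : ∃ K : ℝ, K = (sph d)⁻¹ * (∫ ρ in (r / 2)..R₁, (ρ ^ (d - 1))⁻¹) := ⟨_, rfl⟩
      obtain ⟨ψ, g, F⟩ := hh r (2 / (|K| + 1)) hr hrR (by positivity) (by
        rw [← hK, div_div_cancel₀ (by norm_num)]
        have := le_abs_self K
        linarith)
      exact ⟨_, ψ, g, F⟩
    obtain ⟨γ₁, ψ₁, g₁, F₁⟩ := hh' (R₁ / 2) (by linarith) (by linarith)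
    have hD0 : 0 ≤ D := (F₁.h_le x).1.trans (F₁.h_le x).2
    have hhc : Continuous h := F₁.h_cont
    have hhs : ∀ y, R₁ ≤ ‖y - x‖ → h y = 0 := F₁.h_supp
    have hb1 : Metric.closedBall x R₁ ⊆ Ω := (Metric.closedBall_subset_closedBall hR₁R).trans hball
    have hcs : ∀ k : En d → ℝ, (∀ y, R₁ ≤ ‖y - x‖ → k y = 0) → HasCompactSupport k := by
      intro k hk
      apply HasCompactSupport.intro (isCompact_closedBall x R₁)
      intro y hy
      apply hk
      rw [Metric.mem_closedBall, dist_eq_norm, not_le] at hy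
      exact hy.le
    have hout : ∀ k : En d → ℝ, (∀ y, R₁ ≤ ‖y - x‖ → k y = 0) → ∀ y, y ∉ Ω → k y = 0 := by
      intro k hk y hy
      apply hk
      by_contra hlt
      apply hy
      apply hb1
      rw [Metric.mem_closedBall, dist_eq_norm]
      exact (not_le.1 hlt).le
    have hfi : ∀ k : En d → ℝ, Continuous k → (∀ y, R₁ ≤ ‖y - x‖ → k y = 0) →
        Integrable (fun y => f y * k y) := by
      intro k hk hks
      apply (hk.integrable_of_hasCompactSupport (hcs k hks)).bdd_mul (c := B)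
        hB.1.aestronglyMeasurable
      exact Eventually.of_forall fun y => by
        rw [Real.norm_eq_abs]
        exact hB.2 y
    have hfh0 : ∀ y, 0 ≤ f y * h y := fun y => mul_nonneg (hf0 y) (F₁.h_le y).1
    have hfhi : Integrable (fun y => f y * h y) := hfi h hhc hhs
    have hE0 : 0 ≤ D * R₁ ^ d := by positivity
    have hle : ∀ κ' : ℝ, 0 < κ' → ∫ y, f y * h y ≤ D * R₁ ^ d * κ' := by
      intro κ' hκ'
      obtain ⟨ρ₀, hρ₀, hρ⟩ := hleb κ' hκ'
      obtain ⟨r, hr⟩ : ∃ r : ℝ, r = min ρ₀ (R₁ / 2) := ⟨_, rfl⟩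
      have hr0 : 0 < r := by rw [hr]; exact lt_min hρ₀ (by linarith)
      have hrR : r < R₁ := by
        rw [hr]
        exact (min_le_right _ _).trans_lt (by linarith)
      have hrρ : r ≤ ρ₀ := by rw [hr]; exact min_le_left _ _
      obtain ⟨γ, ψ, g, F⟩ := hh' r hr0 hrR
      have hgs : ∀ y, R₁ ≤ ‖y - x‖ → g y = 0 := fun y hy => F.g_supp y (hrR.le.trans hy)
      have hψT : Tst Ω ψ := by
        refine ⟨F.smooth, hcs ψ F.supp, ?_⟩
        refine (closure_minimal ?_ Metric.isClosed_closedBall).trans hb1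
        intro y hy
        rw [Metric.mem_closedBall, dist_eq_norm]
        by_contra hlt
        exact hy (F.supp y (not_le.1 hlt).le)
      have hgh : Continuous fun y => g y - h y := F.g_cont.sub F.h_cont
      have hghs : ∀ y, R₁ ≤ ‖y - x‖ → g y - h y = 0 := by
        intro y hy
        rw [hgs y hy, hhs y hy, sub_zero]
      have e1 := key ι hι hψT hgh (hcs _ hghs) F.lap G
      have e2 : ∫ y, ι G y * (g y - h y) ∂(mu Ω) = ∫ y, f y * (g y - h y) ∂(mu Ω) := by
        apply integral_congr_ae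
        filter_upwards [hfG] with y hy
        rw [hy]
      have e3 : ∫ y, f y * (g y - h y) ∂(mu Ω) = ∫ y, f y * (g y - h y) := by
        unfold mu
        apply setIntegral_eq_integral_of_forall_compl_eq_zero
        intro y hy
        rw [hout _ hghs y hy, mul_zero]
      have e4 : ∫ y, f y * (g y - h y) = (∫ y, f y * g y) - (∫ y, f y * h y) := by
        rw [← integral_sub (hfi g F.g_cont hgs) hfhi]
        congr 1
        funext y
        ring
      have e5 := hsup ψ hψT F.nonneg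
      rw [e1, e2, e3, e4] at e5
      have e6 : ∫ y, f y * g y = ∫ y in Metric.closedBall x r, f y * g y := by
        symm
        apply setIntegral_eq_integral_of_forall_compl_eq_zero
        intro y hy
        rw [F.g_supp y (by
          rw [Metric.mem_closedBall, dist_eq_norm, not_le] at hy
          exact hy.le), mul_zero]
      have hfint : IntegrableOn f (Metric.closedBall x r) := by
        apply Measure.integrableOn_of_bounded (M := B)
          (isCompact_closedBall x r).measure_lt_top.ne hB.1.aestronglyMeasurable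
        exact Eventually.of_forall fun y => by
          rw [Real.norm_eq_abs]
          exact hB.2 y
      have e7 : ∫ y in Metric.closedBall x r, f y * g y ≤
          ∫ y in Metric.closedBall x r, |f y - f x| * (D * R₁ ^ d / r ^ d) := by
        apply integral_mono (hfi g F.g_cont hgs).integrableOn
        · have : (fun y => |f y - f x| * (D * R₁ ^ d / r ^ d)) =
              fun y => f y * (D * R₁ ^ d / r ^ d) := by
            funext y
            rw [hfx, sub_zero, abs_of_nonneg (hf0 y)]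
          rw [this]
          exact hfint.mul_const _
        · intro y
          show f y * g y ≤ |f y - f x| * (D * R₁ ^ d / r ^ d)
          rw [hfx, sub_zero, abs_of_nonneg (hf0 y)]
          exact mul_le_mul_of_nonneg_left (F.g_le y) (hf0 y)
      have e8 : ∫ y in Metric.closedBall x r, |f y - f x| * (D * R₁ ^ d / r ^ d) ≤
          D * R₁ ^ d * κ' := by
        rw [integral_mul_const]
        have h9 := hρ r hr0 hrρ
        have hrd : 0 < r ^ d := by positivity
        calc (∫ y in Metric.closedBall x r, |f y - f x|) * (D * R₁ ^ d / r ^ d)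
            ≤ κ' * r ^ d * (D * R₁ ^ d / r ^ d) :=
              mul_le_mul_of_nonneg_right h9 (by positivity)
          _ = D * R₁ ^ d * κ' := by
              field_simp
      linarith
    have hzero : ∫ y, f y * h y = 0 := by
      apply le_antisymm _ (integral_nonneg hfh0)
      apply le_of_forall_pos_le_add
      intro ε hε
      have h1 := hle (ε / (D * R₁ ^ d + 1)) (by positivity)
      have h2 : D * R₁ ^ d * (ε / (D * R₁ ^ d + 1)) ≤ ε := by
        rw [mul_div_assoc', div_le_iff₀ (by positivity)]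
        nlinarith
      linarith
    have hae := (integral_eq_zero_iff_of_nonneg hfh0 hfhi).1 hzero
    filter_upwards [hae] with y hy h1 h2
    have h3 := F₁.h_pos y h1 h2
    have h4 : f y * h y = 0 := hy
    rcases mul_eq_zero.1 h4 with h5 | h5
    · exact h5
    · exact absurd h5 h3.ne'
  have hall : ∀ᵐ y : En d, ∀ q : ℚ, 0 < (q : ℝ) → (q : ℝ) ≤ R → (q : ℝ) / 2 < ‖y - x‖ →
      ‖y - x‖ < q → f y = 0 := by
    rw [ae_all_iff]
    intro q
    by_cases hq : 0 < (q : ℝ) ∧ (q : ℝ) ≤ R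
    · filter_upwards [shell q hq.1 hq.2] with y hy _ _ h1 h2
      exact hy h1 h2
    · exact Eventually.of_forall fun y h1 h2 => absurd ⟨h1, h2⟩ hq
  filter_upwards [hall] with y hy hyR
  rcases eq_or_lt_of_le (norm_nonneg (y - x)) with h0 | h0
  · have : y = x := by
      rw [← sub_eq_zero, ← norm_eq_zero]
      exact h0.symm
    rw [this]
    exact hfx
  · obtain ⟨q, hq1, hq2⟩ := exists_rat_btwn (lt_min hyR (by linarith : ‖y - x‖ < 2 * ‖y - x‖))
    have hq3 := hq2.trans_le (min_le_left _ _)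
    have hq4 := hq2.trans_le (min_le_right _ _)
    exact hy q (h0.trans hq1) hq3.le (by linarith) hq1

end Pool.Agent.BEH.H57
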